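import Pool.Agent.W345.GK.Cl2

/-! Project GK, part CAR: the Cartier operator of the cyclotomic field. -/

set_option autoImplicit false

open Polynomial Finset

namespace Pool.Agent.W155.GK

open Pool.Agent.W345.GK

section Laurent
variable {F : Type} [Field F]

theorem coeff_Dx (q : ℕ) (f : LS F) (j : ℤ) :
    (Dx q f).coeff (j + q - 1) = -((j : F) * f.coeff j) := by
  unfold Dx
  rw [HahnSeries.coeff_neg, LaurentSeries.derivative_apply]
  have h : j + (q : ℤ) - 1 = (j - 1) + q := by ring
  rw [h, HahnSeries.coeff_single_mul_add, LaurentSeries.hasseDeriv_coeff, one_mul]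
  simp

theorem coeff_pow_p (p : ℕ) [Fact p.Prime] [CharP F p] (f : LS F) (j : ℤ) :
    (f ^ p).coeff (p * j) = (f.coeff j) ^ p := by
  have hpp : p.Prime := Fact.out
  have hE : ExpChar F p := ExpChar.prime hpp
  have h := LaurentSeries.single_order_mul_powerSeriesPart f
  have key : ∀ g : PowerSeries F, ∀ m : ℕ, PowerSeries.coeff (p * m) (g ^ p) =
      (PowerSeries.coeff m g) ^ p := by
    intro g m
    have h0 := MvPowerSeries.map_iterateFrobenius_expand (σ := Unit) (R := F) p hpp.ne_zero g 1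
    have h2 := congrArg (PowerSeries.coeff (p * m)) h0.symm
    have h3 : PowerSeries.coeff (p * m) (g ^ p ^ 1) = iterateFrobenius F p 1
      (PowerSeries.coeff (p * m) (PowerSeries.expand (p ^ 1) (pow_ne_zero 1 hpp.ne_zero) g)) := h2
    simp only [pow_one] at h3
    rw [h3, PowerSeries.coeff_expand_mul, iterateFrobenius_def, pow_one]
  have h1 : f ^ p = HahnSeries.single ((p : ℤ) * f.order) (1 : F) *
      ((f.powerSeriesPart ^ p : PowerSeries F) : LS F) := by
    conv_lhs => rw [← h]
    rw [mul_pow, HahnSeries.single_pow, one_pow, nsmul_eq_mul, PowerSeries.coe_pow]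
  have hp0 : (0 : ℤ) < p := by exact_mod_cast hpp.pos
  have h5 : (p : ℤ) * j = p * (j - f.order) + p * f.order := by ring
  rw [h1, h5, HahnSeries.coeff_single_mul_add, one_mul, PowerSeries.coeff_coe]
  conv_rhs => rw [← h, show j = (j - f.order) + f.order by ring,
    HahnSeries.coeff_single_mul_add, one_mul, PowerSeries.coeff_coe]
  by_cases hj : j - f.order < 0
  · rw [if_pos hj, if_pos (mul_neg_of_pos_of_neg hp0 hj), zero_pow hpp.ne_zero]
  · rw [if_neg hj, if_neg (not_lt.2 (mul_nonneg hp0.le (not_lt.1 hj))), Int.natAbs_mul,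
      Int.natAbs_natCast, key]

/-- Wilson -/
theorem wilson (p : ℕ) [Fact p.Prime] (E : Type) [Field E] [CharP E p] :
    (((p - 1).factorial : ℕ) : E) = -1 := by
  have h := ZMod.wilsons_lemma p
  have h1 : (((p - 1).factorial + 1 : ℕ) : ZMod p) = 0 := by
    push_cast; rw [h]; ring
  rw [ZMod.natCast_eq_zero_iff] at h1
  have h2 := (CharP.cast_eq_zero_iff E p _).2 h1
  push_cast at h2
  exact eq_neg_of_add_eq_zero_left h2

/-- coefficients of the iterated derivative, in characteristic dividing `q` -/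
theorem coeff_iter (q : ℕ) (hq : ((q : ℕ) : F) = 0) (f : LS F) (N : ℤ) (m : ℕ) :
    ((Dx q)^[m] f).coeff (N + m * ((q : ℤ) - 1)) =
      (-1) ^ m * (∏ t ∈ range m, ((N : F) - t)) * f.coeff N := by
  induction m with
  | zero => simp
  | succ m ih =>
    rw [Function.iterate_succ_apply']
    have e : N + ((m + 1 : ℕ) : ℤ) * ((q : ℤ) - 1) = (N + m * ((q : ℤ) - 1)) + q - 1 := by
      push_cast; ring
    rw [e, coeff_Dx, ih, prod_range_succ, pow_succ]
    have : (((N + m * ((q : ℤ) - 1) : ℤ)) : F) = (N : F) - m := by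
      push_cast; rw [hq]; ring
    rw [this]
    ring

theorem coeff_car (p q : ℕ) [Fact p.Prime] [CharP F p] (hq : ((q : ℕ) : F) = 0) (f : LS F)
    (j : ℤ) : (-((Dx q)^[p - 1] f)).coeff (p * j) =
      f.coeff (p * j - ((p : ℤ) - 1) * ((q : ℤ) - 1)) := by
  have hpp : p.Prime := Fact.out
  have hp1 : ((p - 1 : ℕ) : ℤ) = (p : ℤ) - 1 := by
    rw [Nat.cast_sub hpp.one_le]; simp
  have hp0 : ((p : ℕ) : F) = 0 := CharP.cast_eq_zero F p
  set N : ℤ := p * j - ((p : ℤ) - 1) * ((q : ℤ) - 1) with hN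
  have e : (p : ℤ) * j = N + ((p - 1 : ℕ) : ℤ) * ((q : ℤ) - 1) := by rw [hN, hp1]; ring
  rw [HahnSeries.coeff_neg, e, coeff_iter q hq]
  have hNF : (N : F) = -1 := by
    rw [hN]; push_cast; rw [hq, hp0]; ring
  rw [hNF]
  have hprod : ∏ t ∈ range (p - 1), ((-1 : F) - t) = (-1) ^ (p - 1) * (-1) := by
    have h2 : ∏ t ∈ range (p - 1), ((-1 : F) - t) =
        (∏ _t ∈ range (p - 1), (-1 : F)) * ∏ t ∈ range (p - 1), ((t : F) + 1) := by
      rw [← prod_mul_distrib]
      exact prod_congr rfl fun t _ => by ring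
    have h3 : ∏ t ∈ range (p - 1), ((t : F) + 1) = (((p - 1).factorial : ℕ) : F) := by
      rw [← prod_range_add_one_eq_factorial]
      push_cast
      rfl
    rw [h2, h3, wilson p F, prod_const, card_range]
  rw [hprod]
  have h1 : ((-1 : F) ^ (p - 1)) * (-1) ^ (p - 1) = 1 := by
    rw [← mul_pow]; simp
  calc -((-1) ^ (p - 1) * ((-1) ^ (p - 1) * -1) * f.coeff N)
      = ((-1 : F) ^ (p - 1) * (-1) ^ (p - 1)) * f.coeff N := by ring
    _ = f.coeff N := by rw [h1, one_mul]

end Laurent

section Rep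
variable {E : Type} [Field E] (p : ℕ) [Fact p.Prime] [CharP E p]

/-- the subalgebra generated by `T` over the `p`-th powers -/
noncomputable def SS (T : E) : Subalgebra (frobenius E p).range E :=
  Algebra.adjoin (frobenius E p).range {T}

theorem pow_mem_SS (T x : E) : x ^ p ∈ SS p T :=
  (SS p T).algebraMap_mem ⟨x ^ p, x, rfl⟩

theorem T_mem_SS (T : E) : T ∈ SS p T := Algebra.subset_adjoin rfl

theorem inv_mem_SS (T y : E) (hy : y ∈ SS p T) : y⁻¹ ∈ SS p T := by
  have hpp : p.Prime := Fact.out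
  by_cases h0 : y = 0
  · rw [h0, inv_zero]; exact (SS p T).zero_mem
  have h1 : y⁻¹ = y ^ (p - 1) * (y⁻¹) ^ p := by
    have : (y⁻¹) ^ p = (y⁻¹) ^ (p - 1) * y⁻¹ := by
      rw [← pow_succ]; congr 1; have := hpp.pos; omega
    rw [this, ← mul_assoc, ← mul_pow, mul_inv_cancel₀ h0, one_pow, one_mul]
  rw [h1]
  exact (SS p T).mul_mem ((SS p T).pow_mem hy _) (pow_mem_SS p T _)

theorem rep (T b : E) (hb : b ∈ SS p T) :
    ∃ β : ℕ → E, b = ∑ i ∈ range p, β i ^ p * T ^ i := by
  have hpp : p.Prime := Fact.out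
  unfold SS at hb
  rw [Algebra.adjoin_singleton_eq_range_aeval] at hb
  obtain ⟨f, hf⟩ := hb
  have hf' : aeval T f = b := hf
  set g : (frobenius E p).range[X] := X ^ p - C ⟨T ^ p, T, rfl⟩ with hg
  have hgm : g.Monic := monic_X_pow_sub_C _ hpp.ne_zero
  have hgd : g.natDegree = p := natDegree_X_pow_sub_C
  have hgT : aeval T g = 0 := by
    rw [hg, map_sub, map_pow, aeval_X, aeval_C]
    exact sub_self _
  have h1 : aeval T (f %ₘ g) = b := by
    rw [← hf', ← modByMonic_add_div f g, map_add, map_mul, hgT, zero_mul, add_zero]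
    rw [modByMonic_add_div f g]
  have h2 : (f %ₘ g).natDegree < p := by
    have := natDegree_modByMonic_lt f hgm (by
      intro h; rw [h, natDegree_one] at hgd; exact hpp.ne_zero hgd.symm)
    rwa [hgd] at this
  rw [aeval_eq_sum_range' h2] at h1
  have h3 : ∀ i, ∃ β : E, β ^ p = ((f %ₘ g).coeff i : E) := fun i => by
    obtain ⟨β, hβ⟩ := ((f %ₘ g).coeff i).2
    exact ⟨β, hβ⟩
  choose β hβ using h3
  refine ⟨β, ?_⟩
  rw [← h1]
  refine sum_congr rfl fun i _ => ?_
  rw [hβ i]
  rfl

end Rep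

section Deriv
variable {E : Type} [Field E] {D : E → E} (hadd : ∀ x y, D (x + y) = D x + D y)
  (hmul : ∀ x y, D (x * y) = x * D y + y * D x)
include hadd hmul

omit hadd in
theorem D_one : D 1 = 0 := by
  have := hmul 1 1
  rw [one_mul, one_mul] at this
  exact left_eq_add.1 this

omit hmul in
theorem D_zero : D 0 = 0 := by
  have := hadd 0 0
  rw [add_zero] at this
  exact left_eq_add.1 this

theorem D_nat (n : ℕ) : D (n : E) = 0 := by
  induction n with
  | zero => simpa using D_zero hadd
  | succ n ih => rw [Nat.cast_succ, hadd, ih, D_one hmul, add_zero]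

theorem D_pow (x : E) (n : ℕ) : D (x ^ n) = n * x ^ (n - 1) * D x := by
  induction n with
  | zero => simpa using D_one hmul
  | succ n ih =>
    rw [pow_succ, hmul, ih]
    rcases Nat.eq_zero_or_pos n with rfl | hn
    · simp
    · have : x ^ n = x ^ (n - 1) * x := by rw [← pow_succ]; congr 1; omega
      rw [Nat.add_sub_cancel, this]
      push_cast
      ring

omit hmul in
theorem D_sum {ι : Type} (s : Finset ι) (f : ι → E) : D (∑ i ∈ s, f i) = ∑ i ∈ s, D (f i) := by
  classical
  induction s using Finset.induction_on with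
  | empty => simpa using D_zero hadd
  | insert a s ha ih => rw [sum_insert ha, sum_insert ha, hadd, ih]

omit hmul in
theorem iter_sum {ι : Type} (s : Finset ι) (f : ι → E) (m : ℕ) :
    D^[m] (∑ i ∈ s, f i) = ∑ i ∈ s, D^[m] (f i) := by
  induction m with
  | zero => rfl
  | succ m ih =>
    rw [Function.iterate_succ_apply', ih, D_sum hadd]
    exact sum_congr rfl fun i _ => (Function.iterate_succ_apply' D m (f i)).symm

theorem iter_mul (p : ℕ) [CharP E p] (β y : E) (m : ℕ) :
    D^[m] (β ^ p * y) = β ^ p * D^[m] y := by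
  induction m with
  | zero => rfl
  | succ m ih =>
    rw [Function.iterate_succ_apply', ih, hmul, D_pow hadd hmul, CharP.cast_eq_zero E p,
      Function.iterate_succ_apply']
    ring

theorem iter_T (T : E) (hT : D T = 1) (i m : ℕ) :
    D^[m] (T ^ i) = (i.descFactorial m : E) * T ^ (i - m) := by
  induction m with
  | zero => simp
  | succ m ih =>
    rw [Function.iterate_succ_apply', ih, hmul, D_nat hadd hmul, D_pow hadd hmul, hT,
      Nat.descFactorial_succ, Nat.sub_sub]
    push_cast
    ring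

theorem iter_rep (p : ℕ) [Fact p.Prime] [CharP E p] (T : E) (hT : D T = 1) (β : ℕ → E) :
    D^[p - 1] (∑ i ∈ range p, β i ^ p * T ^ i) = - β (p - 1) ^ p := by
  have hpp : p.Prime := Fact.out
  rw [iter_sum hadd]
  have h1 : ∀ i ∈ range p, i ≠ p - 1 → D^[p - 1] (β i ^ p * T ^ i) = 0 := by
    intro i hi hne
    rw [iter_mul hadd hmul, iter_T hadd hmul T hT, Nat.descFactorial_of_lt (by
      have := mem_range.1 hi; omega)]
    simp
  rw [sum_eq_single (p - 1) h1 (fun h => by
    exfalso; apply h; rw [mem_range]; have := hpp.pos; omega)]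
  rw [iter_mul hadd hmul, iter_T hadd hmul T hT, Nat.descFactorial_self, wilson p E]
  simp

end Deriv

theorem carOK : S_C1 → S_I1 → S_CAR := by
  intro hC1 _ k F Fc _ _ _ _ _ _ p _ _ P c Lam ι D hP hPi _ hE hD b
  have hpp : p.Prime := Fact.out
  have hkX : CharP k[X] p := inferInstance
  have hFc : CharP Fc p := charP_of_injective_ringHom c.inj p
  have hF : CharP F p := charP_of_injective_algebraMap (algebraMap k F).injective p
  obtain ⟨n, -, hcard⟩ := FiniteField.card k p
  have hpq : p ∣ Fintype.card k := by rw [hcard]; exact dvd_pow_self p n.ne_zero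
  have hqF : ((Fintype.card k : ℕ) : F) = 0 := (CharP.cast_eq_zero_iff F p _).2 hpq
  set T : Fc := algebraMap k[X] Fc X with hT
  -- everything is in `SS p T`
  have hA : ∀ a : k[X], algebraMap k[X] Fc a ∈ SS p T := by
    intro a
    induction a using Polynomial.induction_on with
    | C u =>
      obtain ⟨m, hm⟩ := hpq
      have h1 : u = (u ^ m) ^ p := by
        rw [← pow_mul, mul_comm, ← hm, FiniteField.pow_card]
      rw [h1, C_pow, map_pow]
      exact pow_mem_SS p T _
    | add f g hf hg => rw [map_add]; exact (SS p T).add_mem hf hg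
    | monomial n u h =>
      rw [pow_succ, ← mul_assoc, map_mul]
      exact (SS p T).mul_mem h (T_mem_SS p T)
  have hlam : c.lam 1 ∈ SS p T := by
    have h1 : aeval (c.lam 1) (car P) = 0 := (c.roots _).2 ⟨1, rfl⟩
    rw [(hC1 k).1 P, map_sum, sum_range_succ'] at h1
    simp only [map_mul, aeval_C, map_pow, aeval_X, pow_zero, pow_one] at h1
    rw [(hC1 k).2.1 P] at h1
    have hP0 : algebraMap k[X] Fc P ≠ 0 := by
      rw [Ne, map_eq_zero_iff _ c.inj]; exact hPi.ne_zero
    have h2 : c.lam 1 = (algebraMap k[X] Fc P)⁻¹ * (-∑ i ∈ range P.natDegree,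
        algebraMap k[X] Fc (br P (i + 1)) * c.lam 1 ^ Fintype.card k ^ (i + 1)) := by
      rw [← eq_neg_iff_add_eq_zero.2 ((add_comm _ _).trans h1), inv_mul_cancel_left₀ hP0]
    rw [h2]
    refine (SS p T).mul_mem (inv_mem_SS p T _ (hA P)) ((SS p T).neg_mem ?_)
    refine (SS p T).sum_mem fun i _ => (SS p T).mul_mem (hA _) ?_
    obtain ⟨m, hm⟩ : p ∣ Fintype.card k ^ (i + 1) := hpq.trans (dvd_pow_self _ (by omega))
    rw [hm, mul_comm, pow_mul]
    exact pow_mem_SS p T _
  have hall : ∀ y : Fc, y ∈ SS p T := by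
    intro y
    obtain ⟨a, f, ha, hy⟩ := c.gen y
    have ha0 : algebraMap k[X] Fc a ≠ 0 := by
      rw [Ne, map_eq_zero_iff _ c.inj]; exact ha
    have h1 : y = (algebraMap k[X] Fc a)⁻¹ * aeval (c.lam 1) f := by
      rw [← hy, inv_mul_cancel_left₀ ha0]
    rw [h1]
    refine (SS p T).mul_mem (inv_mem_SS p T _ (hA a)) ?_
    rw [aeval_eq_sum_range]
    refine (SS p T).sum_mem fun i _ => ?_
    rw [Algebra.smul_def]
    exact (SS p T).mul_mem (hA _) ((SS p T).pow_mem hlam _)
  obtain ⟨β, hβ⟩ := rep p T b (hall b)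
  have hDT : D T = 1 := by rw [hT, hD.base, derivative_X, map_one]
  have hkey : D^[p - 1] b = - β (p - 1) ^ p := by
    rw [hβ]; exact iter_rep hD.add hD.mul p T hDT β
  refine ⟨β (p - 1), by rw [hkey, neg_neg], ?_, ?_⟩
  · intro hb
    have hit : ∀ m, OP P (D^[m] b) := by
      intro m
      induction m with
      | zero => exact hb
      | succ m ih => rw [Function.iterate_succ_apply']; exact hD.op _ ih
    obtain ⟨N, hN⟩ := hit (p - 1)
    refine ⟨N, IsIntegral.of_pow hpp.pos (n := p) ?_⟩
    have h1 : ((algebraMap k[X] Fc P) ^ N * β (p - 1)) ^ p =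
        algebraMap k[X] Fc (-(P ^ (N * (p - 1)))) * ((algebraMap k[X] Fc P) ^ N * D^[p - 1] b) := by
      rw [hkey, map_neg, map_pow, mul_pow, ← pow_mul]
      have : N * p = N * (p - 1) + N := by
        have := hpp.pos
        nth_rw 1 [show p = (p - 1) + 1 by omega]
        ring
      rw [this, pow_add]
      ring
    rw [h1]
    exact isIntegral_algebraMap.mul hN
  · intro j
    have hit : ∀ (m : ℕ) (y : Fc), ι (D^[m] y) = (Dx (Fintype.card k))^[m] (ι y) := by
      intro m y
      induction m with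
      | zero => rfl
      | succ m ih => rw [Function.iterate_succ_apply', hD.emb, ih, Function.iterate_succ_apply']
    have h1 : ι (β (p - 1)) ^ p = -((Dx (Fintype.card k))^[p - 1] (ι b)) := by
      rw [← hit, hkey, map_neg, map_pow, neg_neg]
    rw [← coeff_pow_p p, h1, coeff_car p (Fintype.card k) hqF]

end Pool.Agent.W155.GK
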